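import Mathlib
import Pool.Agent.R473.DW.Shift
import Pool.Agent.TH507.ZS.Inst

set_option autoImplicit false

/-!
# `ζ(2n) / ζ(n) ^ 2` at large integers: digits, and linear forms with `S`-units
-/

namespace Pool.Agent.Results.MP_f1a024_nt.DigitsAndSUnits

open Pool.Agent.R473.DW Pool.Agent.Y760.RT Pool.Agent.TH507.ZS Pool.Agent.R473.TB

/-- the value of the Riemann zeta function at the integer `s ≥ 2` -/
noncomputable def zeta (s : ℕ) : ℝ := ∑' k : ℕ, 1 / ((k : ℝ) + 1) ^ s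

/-- `t(n) = ζ(2n) / ζ(n) ^ 2` -/
noncomputable def t (n : ℕ) : ℝ := zeta (2 * n) / zeta n ^ 2

/-- the `k`-th digit after the point of `x` in base `b` (`k = 0` is the first one) -/
noncomputable def digit (b : ℕ) (x : ℝ) (k : ℕ) : ℤ := ⌊(b : ℝ) ^ (k + 1) * x⌋ % b

/-- the number of different blocks of `n` consecutive digits of `x` in base `b` -/
noncomputable def blocks (b : ℕ) (x : ℝ) (n : ℕ) : ℕ :=
  (Set.range fun i : ℕ => fun j : Fin n => digit b x (i + j)).ncard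

/-- `D` is a sum of `R` terms `a ∏ p ^ k(p)` over `p ∈ S`, with integers `|a| ≤ R` and integers
`|k(p)| ≤ X` -/
def SUnitSum (S : Finset ℕ) (R : ℕ) (X : ℝ) (D : ℚ) : Prop :=
  ∃ (a : Fin R → ℤ) (k : Fin R → ℕ → ℤ), (∀ r, |a r| ≤ R) ∧ (∀ r, ∀ p ∈ S, |(k r p : ℝ)| ≤ X) ∧
    D = ∑ r, (a r : ℚ) * ∏ p ∈ S, (p : ℚ) ^ k r p

lemma dser_zeta (n : ℕ) : dser zQ n = zeta n := by
  rw [dser, zeta]
  refine tsum_congr fun k => ?_
  rw [zQ_apply (by omega)]
  push_cast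
  rfl

/-- **Result.** Let `t(n) = ζ(2n) / ζ(n) ^ 2` and `h ≥ 0`.
(1) For every finite set `S` of primes there is `K ≥ 2` such that for all `R`, `C` and `B > 1`, all
large `n`, all `D_0, …, D_h`, not all zero, which are sums of at most `R` `S`-units of height
exponential in `C n`, and all integers `p`:
`|D_0 t(n) + … + D_h t(n + h) - p| > B ^ (-n) min(1, |D_i| K ^ (-n))` for every `i`.
(2) For every base `b` there is `κ` such that for all `ε > 0` and `C` and all large `n` no word of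
at least `ε n` digits occurs at two different places, not both before `κ n`, in the first `C n`
digits of the expansions of `t(n), …, t(n + h)` in base `b`.
(3) For every base `b` and every `C` the expansion of `t(n)` in base `b` has more than `C n`
different blocks of `n` digits, for all large `n`. -/
theorem result (h : ℕ) :
    (∀ S : Finset ℕ, (∀ p ∈ S, p.Prime) → ∃ K : ℕ, 2 ≤ K ∧ ∀ (R : ℕ) (C B : ℝ), 1 < B →
      ∃ n0 : ℕ, ∀ n : ℕ, n0 ≤ n → ∀ D : Fin (h + 1) → ℚ, (∀ j, SUnitSum S R (C * n) (D j)) →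
      (∃ j, D j ≠ 0) → ∀ (p : ℤ) (i : Fin (h + 1)),
      (B ^ n)⁻¹ * min 1 (|(D i : ℝ)| / (K : ℝ) ^ n) <
        |∑ j : Fin (h + 1), (D j : ℝ) * t (n + j) - p|) ∧
    (∀ b : ℕ, 2 ≤ b → ∃ κ : ℝ, ∀ ε C : ℝ, 0 < ε → ∃ n0 : ℕ, ∀ n : ℕ, n0 ≤ n →
      ∀ (r s : Fin (h + 1)) (i j : ℕ), (i : ℝ) ≤ C * n → (j : ℝ) ≤ C * n →
      κ * n ≤ max i j → (r, i) ≠ (s, j) → ∃ l : ℕ, (l : ℝ) < ε * n ∧
        digit b (t (n + r)) (i + l) ≠ digit b (t (n + s)) (j + l)) ∧
    (∀ b : ℕ, 2 ≤ b → ∀ C : ℝ, ∃ n0 : ℕ, ∀ n : ℕ, n0 ≤ n → C * n < blocks b (t n) n) := by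
  obtain ⟨A, hA⟩ := tQ_pb
  obtain ⟨n1, hn1⟩ := dser_t
  have ht : ∀ n, n1 ≤ n → dser tQ n = t n := by
    intro n hn
    rw [hn1 n hn, dser_zeta, dser_zeta, t]
  have hp : ∀ p : ℕ, p.Prime → tQ p ≠ 0 := by
    intro p hp
    rw [tQ_prime hp]
    norm_num
  have hT : ∀ (h : ℕ) (j : Fin (h + 1)), Tail (fun k => ((tQ k * ((k : ℚ)⁻¹) ^ (j : ℕ) : ℚ) : ℝ))
      (fun n => dser tQ (n + j)) := fun h j => tail_shift (tail_dser hA) j
  refine ⟨fun S hS => ?_, fun b hb => ?_, fun b hb C => ?_⟩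
  · obtain ⟨K, hK, hmain⟩ := main2 (fun (j : Fin (h + 1)) k => tQ k * ((k : ℚ)⁻¹) ^ (j : ℕ))
      (fun j n => dser tQ (n + j)) (hT h) hS (fun v hv => ind_shift (fun k => tQ k) hp S hS h v hv)
    refine ⟨K, hK, fun R C B hB => ?_⟩
    obtain ⟨n0, hn0⟩ := hmain R C B hB
    refine ⟨n0 + n1, fun n hn D hD hD0 p i => ?_⟩
    have h1 := hn0 n (by omega) D hD hD0 p i
    have e1 : ∀ j : Fin (h + 1), dser tQ (n + j) = t (n + j) := fun j => ht _ (by omega)
    simp only [e1] at h1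
    exact h1
  · obtain ⟨κ, hκ⟩ := digits (fun (j : Fin (h + 1)) k => tQ k * ((k : ℚ)⁻¹) ^ (j : ℕ))
      (fun j n => dser tQ (n + j)) (hT h) hb (fun v hv => ind_shift (fun k => tQ k) hp _
        (fun p hp => Nat.prime_of_mem_primeFactors hp) h v hv)
    refine ⟨κ, fun ε C hε => ?_⟩
    obtain ⟨n0, hn0⟩ := hκ ε C hε
    refine ⟨n0 + n1, fun n hn r s i j hi hj hm hne => ?_⟩
    have h1 := hn0 n (by omega) r s i j hi hj hm hne
    have e1 : ∀ j : Fin (h + 1), dser tQ (n + j) = t (n + j) := fun j => ht _ (by omega)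
    simp only [e1] at h1
    exact h1
  · obtain ⟨n0, hn0⟩ := many_blocks (fun (j : Fin (0 + 1)) k => tQ k * ((k : ℚ)⁻¹) ^ (j : ℕ))
      (fun j n => dser tQ (n + j)) (hT 0) hb (fun v hv => ind_shift (fun k => tQ k) hp _
        (fun p hp => Nat.prime_of_mem_primeFactors hp) 0 v hv) C
    refine ⟨n0 + n1, fun n hn => ?_⟩
    have h1 := hn0 n (by omega) 0
    have e1 : dser tQ (n + ((0 : Fin (0 + 1)) : ℕ)) = t n := ht n (by omega)
    rw [e1] at h1
    exact h1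

end Pool.Agent.Results.MP_f1a024_nt.DigitsAndSUnits
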