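import Mathlib
import Pool.Agent.R352.Q.Three
import Pool.Agent.R352.E.Cnt

set_option autoImplicit false

/-!
# `t(n) = ζ(2n) / ζ(n)²`, incomplete zeta integrals and generalized Gompertz numbers over `ℚ(e)`

For an integer `k ≥ 2` let `ω = exp (2 π i / k)`, and for a positive rational number `x` let `R_k(x)` be
the (real) number `(-1)^k / k! * ∫ (∑_j ω^j log t_j)^k exp (-∑_j t_j) dt`, the integral being over
`(0, ∞)^k \ (0, x)^k`. For `l ≥ 1` let `δ_l(x) = ∫_0^∞ log (1 + s / x)^l e^(-s) ds`.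

(1) Let `y_1, …, y_r` be real numbers and `K` a set of integers `k ≥ 2` which are even or for which
`t(k)` is algebraic over `ℚ(e, π, y_1, …, y_r)`. Then at most `r + 1` of the numbers
`π, y_1, …, y_r` and `R_k(x)` (`k ∈ K`, `x` positive rational) are algebraic over `ℚ(e)`, and for every
finite set `S` of pairs `(k, x)`, `k ∈ K`, the field `ℚ(e, π, y_1, …, y_r, R_k(x) : (k, x) ∈ S)` has
transcendence degree at least `|S| + 1`.

(2) For all `n_1, …, n_c ≥ 2` at most `c + 1` of the numbers `π, t(n_1), …, t(n_c)` and `R_k(x)`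
(`k ≥ 2` even or `k = n_i` for some `i`, `x` positive rational) are algebraic over `ℚ(e)`.

(3) If `π` is algebraic over `ℚ(e)` and `K` is a set of integers `k ≥ 2` which are even or for which
`t(k)` is algebraic over `ℚ(e)`, then `e` and the numbers `R_k(x)` (`k ∈ K`, `x` positive rational) are
algebraically independent over `ℚ`.

(4) Let `G` be the multiplicative group generated by positive rational numbers `b_1, …, b_m`. For
`c ≥ 0` at most `m + c + 3` of the numbers `π, t(3), t(5), …, t(2c + 3), γ, log b_1, …, log b_m` and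
`δ_l(x)` (`1 ≤ l ≤ 2c + 4`, `x ∈ G`) are algebraic over `ℚ(e)`.

Numbers of different names are counted separately.
-/

namespace Pool.Agent.Results.MP_f1a024_nt.IncompleteZetaAndGompertz

open Set MeasureTheory

/-- the zeta value `ζ(s) = ∑ 1 / n^s` -/
noncomputable def zeta (s : ℕ) : ℝ := ∑' n : ℕ, 1 / ((n : ℝ) + 1) ^ s

/-- `t(n) = ζ(2n) / ζ(n)²` -/
noncomputable def tratio (n : ℕ) : ℝ := zeta (2 * n) / zeta n ^ 2

/-- `ω = exp (2 π i / k)` -/
noncomputable def root (k : ℕ) : ℂ := Complex.exp (2 * Real.pi * Complex.I / k)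

/-- `(∑_j ω^j log t_j)^k exp (-∑_j t_j)` -/
noncomputable def integrand (k : ℕ) (t : Fin k → ℝ) : ℂ :=
  (∑ j : Fin k, root k ^ (j : ℕ) * (Real.log (t j) : ℂ)) ^ k * ((Real.exp (-∑ j, t j) : ℝ) : ℂ)

/-- `(0, ∞)^k \ (0, x)^k` -/
def rest (k : ℕ) (x : ℝ) : Set (Fin k → ℝ) := {t | (∀ j, 0 < t j) ∧ ∃ j, x ≤ t j}

/-- `R_k(x)`, as a complex number -/
noncomputable def tailIntegral (k : ℕ) (x : ℚ) : ℂ := (-1) ^ k / k.factorial * ∫ t in rest k x, integrand k t

/-- `R_k(x)`, as a real number -/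
noncomputable def R (k : ℕ) (x : ℚ) : ℝ := (tailIntegral k x).re

/-- `δ_l(x) = ∫_0^∞ log (1 + s / x)^l e^(-s) ds` -/
noncomputable def delta (l : ℕ) (x : ℚ) : ℝ :=
  ∫ s in Ioi (0 : ℝ), Real.log (1 + s / (x : ℝ)) ^ l * Real.exp (-s)

/-- `x` is algebraic over `ℚ(e, y_1, …, y_r)` -/
def AlgebraicOverEAnd {r : ℕ} (y : Fin r → ℝ) (x : ℝ) : Prop :=
  IsAlgebraic (IntermediateField.adjoin ℚ ({Real.exp 1} ∪ range y)) x

/-- `x` is algebraic over `ℚ(e)` -/
def AlgebraicOverE (x : ℝ) : Prop := IsAlgebraic (IntermediateField.adjoin ℚ {Real.exp 1}) x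

/-- the numbers `π, y_1, …, y_r` -/
noncomputable def withPi {r : ℕ} (y : Fin r → ℝ) : Fin (r + 1) → ℝ := Fin.cons Real.pi y

/-- the set of names of those of the numbers `z_1, …, z_r` and `R_k(x)` (`k ∈ K`, `x` positive rational)
which are algebraic over `ℚ(e)` -/
def algebraicNames {r : ℕ} (z : Fin r → ℝ) (K : Set ℕ) : Set (Fin r ⊕ (ℕ × ℚ)) :=
  {i | Sum.elim (fun j => AlgebraicOverE (z j)) (fun p => p.1 ∈ K ∧ 0 < p.2 ∧ AlgebraicOverE (R p.1 p.2)) i}

/-- the multiplicative group generated by `b_1, …, b_m` -/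
def group {m : ℕ} (b : Fin m → ℚ) : Set ℚ := {x | ∃ n : Fin m → ℤ, x = ∏ i, b i ^ n i}

/-- the names of the numbers in (4) -/
inductive Name (c m : ℕ) : Type
  /-- `π` -/
  | pi : Name c m
  /-- `t(3), t(5), …, t(2c + 3)` -/
  | ratio (i : Fin (c + 1)) : Name c m
  /-- `γ` -/
  | gamma : Name c m
  /-- `log b_1, …, log b_m` -/
  | log (i : Fin m) : Name c m
  /-- `δ_l(x)`, `1 ≤ l ≤ 2c + 4`; here `l` is the first argument plus one -/
  | gompertz (l : Fin (2 * c + 4)) (x : ℚ) : Name c m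

/-- the numbers in (4) -/
noncomputable def value {c m : ℕ} (b : Fin m → ℚ) : Name c m → ℝ
  | .pi => Real.pi
  | .ratio i => tratio (2 * i + 3)
  | .gamma => Real.eulerMascheroniConstant
  | .log i => Real.log (b i)
  | .gompertz l x => delta (l + 1) x

/-- the set of names of the numbers in (4) which are algebraic over `ℚ(e)` -/
def algebraicNames' (c : ℕ) {m : ℕ} (b : Fin m → ℚ) : Set (Name c m) :=
  {i | (∀ l x, i = .gompertz l x → x ∈ group b) ∧ AlgebraicOverE (value b i)}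

/-! ### The integrals -/

theorem rest_eq (k : ℕ) (x : ℝ) :
    rest k x = Pool.Agent.R352.Q.cube k (Ioi 0) \ Pool.Agent.R352.Q.cube k (Ioo 0 x) := by
  ext t
  simp only [rest, Pool.Agent.R352.Q.cube, mem_sdiff, mem_univ_pi, mem_Ioi, mem_Ioo]
  constructor
  · rintro ⟨h1, j, h2⟩
    exact ⟨h1, fun h => absurd (h j).2 (not_lt.2 h2)⟩
  · rintro ⟨h1, h2⟩
    push Not at h2
    obtain ⟨j, hj⟩ := h2
    exact ⟨h1, j, hj (h1 j)⟩

theorem tailIntegral_eq {k : ℕ} (hk : 2 ≤ k) {x : ℚ} (hx : 0 < x) :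
    tailIntegral k x = (Pool.Agent.R352.Q.Rk k x : ℂ) := by
  have hx' : (0 : ℝ) < x := by exact_mod_cast hx
  have h : tailIntegral k x = Pool.Agent.R352.Q.NI k
      (Pool.Agent.R352.Q.cube k (Ioi 0) \ Pool.Agent.R352.Q.cube k (Ioo 0 x)) := by
    rw [tailIntegral, rest_eq]
    rfl
  rw [h, Pool.Agent.R352.Q.NI_diff, Pool.Agent.R352.Q.NI_full hk, Pool.Agent.R352.Q.NI_box hk hx',
    Pool.Agent.R352.Q.Rk]
  push_cast
  rfl

theorem R_eq {k : ℕ} (hk : 2 ≤ k) {x : ℚ} (hx : 0 < x) : R k x = Pool.Agent.R352.Q.Rk k x := by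
  rw [R, tailIntegral_eq hk hx, Complex.ofReal_re]

/-! ### From `t(k)` to `ζ(k)` -/

theorem zeta_pos {s : ℕ} (hs : 2 ≤ s) : 0 < zeta s := by
  have h2 : Summable (fun n : ℕ => 1 / ((n : ℝ) + 1) ^ s) := by
    have := (summable_nat_add_iff 1).2 (Real.summable_one_div_nat_pow.2 (show 1 < s by omega))
    refine this.congr fun n => ?_
    push_cast
    rfl
  exact h2.tsum_pos (fun n => by positivity) 0 (by norm_num)

theorem zeta_mem {T : Set ℝ} (hpi : Real.pi ∈ Pool.Agent.R352.E.clF T) {k : ℕ} (hk : 2 ≤ k)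
    (h : Even k ∨ tratio k ∈ Pool.Agent.R352.E.clF T) : zeta k ∈ Pool.Agent.R352.E.clF T := by
  rcases h with ⟨j, rfl⟩ | h
  · have := Pool.Agent.R352.E.zt_even hpi j (by omega)
    rw [two_mul] at this
    exact this
  · refine Pool.Agent.R352.E.of_pow (n := 2) (by norm_num) ?_
    have h1 : zeta (2 * k) ∈ Pool.Agent.R352.E.clF T := Pool.Agent.R352.E.zt_even hpi k (by omega)
    have h2 : zeta k ^ 2 = zeta (2 * k) / tratio k := by
      have h3 := (zeta_pos hk).ne'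
      have h4 := (zeta_pos (show 2 ≤ 2 * k by omega)).ne'
      unfold tratio
      field_simp
    rw [h2]
    exact (Pool.Agent.R352.E.clF T).div_mem h1 h

theorem main {r : ℕ} (z : Fin r → ℝ) (K : Set ℕ) (hK : ∀ k ∈ K, 2 ≤ k ∧ AlgebraicOverEAnd z (zeta k)) :
    (algebraicNames z K).encard ≤ (r : ℕ∞) := by
  refine Pool.Agent.R352.E.encard_le_of_finset _ _ fun t ht => ?_
  refine Pool.Agent.R352.Q.countR z t (fun i hi => ?_) (fun p hp => ?_)
  · have h1 := ht hi
    cases i with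
    | inl j => exact Pool.Agent.R352.E.mem_clF.2 h1
    | inr p =>
      obtain ⟨h2, h3, h4⟩ := h1
      rw [R_eq (hK _ h2).1 h3] at h4
      exact Pool.Agent.R352.E.mem_clF.2 h4
  · obtain ⟨h2, h3, -⟩ := ht hp
    exact ⟨(hK _ h2).1, h3, Pool.Agent.R352.E.mem_clF.2 (hK _ h2).2⟩

theorem main_trdeg {r : ℕ} (z : Fin r → ℝ) (K : Set ℕ) (hK : ∀ k ∈ K, 2 ≤ k ∧ AlgebraicOverEAnd z (zeta k))
    (S : Finset (ℕ × ℚ)) (hS : ∀ p ∈ S, p.1 ∈ K ∧ 0 < p.2) :
    ((S.card + 1 : ℕ) : Cardinal) ≤ Algebra.trdeg ℚ (IntermediateField.adjoin ℚ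
      ({Real.exp 1} ∪ range z ∪ (fun p : ℕ × ℚ => R p.1 p.2) '' (S : Set (ℕ × ℚ)))) := by
  have h := Pool.Agent.R352.Q.trdegR z S fun p hp =>
    ⟨(hK _ (hS p hp).1).1, (hS p hp).2, Pool.Agent.R352.E.mem_clF.2 (hK _ (hS p hp).1).2⟩
  have e : (fun p : ℕ × ℚ => R p.1 p.2) '' (S : Set (ℕ × ℚ)) =
      (fun p : ℕ × ℚ => Pool.Agent.R352.Q.Rk p.1 p.2) '' (S : Set (ℕ × ℚ)) := by
    refine image_congr fun p hp => ?_
    have := hS p hp
    exact R_eq (hK _ this.1).1 this.2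
  rw [e]
  exact h

theorem alg_zeta {r : ℕ} (y : Fin r → ℝ) {k : ℕ} (hk : 2 ≤ k)
    (h : Even k ∨ AlgebraicOverEAnd (withPi y) (tratio k)) : AlgebraicOverEAnd (withPi y) (zeta k) := by
  refine Pool.Agent.R352.E.mem_clF.1 (zeta_mem ?_ hk (h.imp_right fun h => Pool.Agent.R352.E.mem_clF.2 h))
  exact Pool.Agent.R352.E.subset_clF _ (Or.inr ⟨0, rfl⟩)

/-! ### The Gompertz numbers -/

/-- the constants `π, t(3), …, t(2c + 3)` -/
noncomputable def con (c : ℕ) : Fin (c + 2) → ℝ := Fin.cons Real.pi fun i : Fin (c + 1) => tratio (2 * i + 3)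

/-- the numbers `γ, log b_1, …, log b_m` -/
noncomputable def logs {m : ℕ} (b : Fin m → ℚ) : Fin (m + 1) → ℝ :=
  Fin.cons Real.eulerMascheroniConstant fun i => Real.log (b i)

/-- the encoding of the names used in the proof -/
def enc {c m : ℕ} : Name c m → Fin (c + 2) ⊕ Fin (m + 1) ⊕ (Fin (2 * c + 4) × ℚ)
  | .pi => Sum.inl 0
  | .ratio i => Sum.inl i.succ
  | .gamma => Sum.inr (Sum.inl 0)
  | .log i => Sum.inr (Sum.inl i.succ)
  | .gompertz l x => Sum.inr (Sum.inr (l, x))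

theorem enc_injective {c m : ℕ} : Function.Injective (enc (c := c) (m := m)) := by
  intro i j h
  cases i with
  | pi =>
    cases j with
    | pi => rfl
    | ratio k => exact absurd (Sum.inl.inj h).symm (Fin.succ_ne_zero _)
    | gamma => exact nomatch h
    | log k => exact nomatch h
    | gompertz l x => exact nomatch h
  | ratio k =>
    cases j with
    | pi => exact absurd (Sum.inl.inj h) (Fin.succ_ne_zero _)
    | ratio k' => rw [Fin.succ_injective _ (Sum.inl.inj h)]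
    | gamma => exact nomatch h
    | log k => exact nomatch h
    | gompertz l x => exact nomatch h
  | gamma =>
    cases j with
    | pi => exact nomatch h
    | ratio k => exact nomatch h
    | gamma => rfl
    | log k => exact absurd (Sum.inl.inj (Sum.inr.inj h)).symm (Fin.succ_ne_zero _)
    | gompertz l x => exact nomatch Sum.inr.inj h
  | log k =>
    cases j with
    | pi => exact nomatch h
    | ratio k => exact nomatch h
    | gamma => exact absurd (Sum.inl.inj (Sum.inr.inj h)) (Fin.succ_ne_zero _)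
    | log k' => rw [Fin.succ_injective _ (Sum.inl.inj (Sum.inr.inj h))]
    | gompertz l x => exact nomatch Sum.inr.inj h
  | gompertz l x =>
    cases j with
    | pi => exact nomatch h
    | ratio k => exact nomatch h
    | gamma => exact nomatch Sum.inr.inj h
    | log k => exact nomatch Sum.inr.inj h
    | gompertz l' x' =>
      have h2 := Sum.inr.inj (Sum.inr.inj h)
      rw [Prod.mk.injEq] at h2
      rw [h2.1, h2.2]

theorem enc_value {c m : ℕ} (b : Fin m → ℚ) (i : Name c m) :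
    Pool.Agent.R352.E.gval (2 * c + 4) (con c) (logs b) (enc i) = value b i := by
  cases i <;> simp [enc, value, Pool.Agent.R352.E.gval, con, logs, delta, Pool.Agent.R352.E.dl]

theorem group_pos {m : ℕ} {b : Fin m → ℚ} (hb : ∀ i, 0 < b i) {x : ℚ} (hx : x ∈ group b) : 0 < x := by
  obtain ⟨n, rfl⟩ := hx
  exact Finset.prod_pos fun i _ => zpow_pos (hb i) _

theorem group_log {m : ℕ} {b : Fin m → ℚ} (hb : ∀ i, 0 < b i) {x : ℚ} (hx : x ∈ group b) :
    Real.eulerMascheroniConstant + Real.log x ∈ Pool.Agent.R352.E.clF ({Real.exp 1} ∪ range (logs b)) := by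
  obtain ⟨n, rfl⟩ := hx
  have h1 : Real.log ((∏ i, b i ^ n i : ℚ) : ℝ) = ∑ i, (n i : ℝ) * Real.log (b i) := by
    push_cast
    rw [Real.log_prod]
    · refine Finset.sum_congr rfl fun i _ => ?_
      rw [Real.log_zpow]
    · intro i _
      have : (b i : ℝ) ≠ 0 := by exact_mod_cast (hb i).ne'
      exact zpow_ne_zero _ this
  rw [h1]
  have h2 : ∀ i, logs b i ∈ Pool.Agent.R352.E.clF ({Real.exp 1} ∪ range (logs b)) := fun i =>
    Pool.Agent.R352.E.subset_clF _ (Or.inr ⟨i, rfl⟩)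
  refine Subfield.add_mem _ (h2 0) (Subfield.sum_mem _ fun i _ => Subfield.mul_mem _ (intCast_mem _ _) ?_)
  exact h2 i.succ

theorem gompertz_main (c : ℕ) {m : ℕ} (b : Fin m → ℚ) (hb : ∀ i, 0 < b i) :
    (algebraicNames' c b).encard ≤ ((m + c + 3 : ℕ) : ℕ∞) := by
  classical
  refine Pool.Agent.R352.E.encard_le_of_finset _ _ fun t ht => ?_
  have h := Pool.Agent.R352.E.count_main (J := 2 * c + 4) (con c) (logs b) ?_
    (t.map ⟨enc, enc_injective⟩) ?_ ?_
  · rw [Finset.card_map] at h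
    omega
  · intro l x hx T hcon he h0 hd
    have hpi : Real.pi ∈ Pool.Agent.R352.E.clF T := hcon 0
    refine Pool.Agent.R352.E.EE_mem hx he h0 (l + 1) (fun k hk hk' => ?_) (by exact_mod_cast hd)
    refine Pool.Agent.R352.E.zt_all hpi (c + 1) (fun i hi => ?_) k hk ?_
    · refine zeta_mem hpi (by omega) (Or.inr ?_)
      have := hcon (Fin.succ ⟨i, hi⟩)
      simp only [con, Fin.cons_succ] at this
      exact this
    · have := l.2
      omega
  · intro i hi
    obtain ⟨j, hj, rfl⟩ := Finset.mem_map.1 hi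
    rw [Function.Embedding.coeFn_mk, enc_value]
    exact Pool.Agent.R352.E.mem_clF.2 (ht hj).2
  · intro p hp
    obtain ⟨j, hj, hjp⟩ := Finset.mem_map.1 hp
    have h1 : j = .gompertz p.1 p.2 := enc_injective hjp
    have h2 := (ht hj).1 _ _ h1
    exact ⟨group_pos hb h2, group_log hb h2⟩

theorem result :
    -- (1)
    (∀ (r : ℕ) (y : Fin r → ℝ) (K : Set ℕ),
      (∀ k ∈ K, 2 ≤ k ∧ (Even k ∨ AlgebraicOverEAnd (withPi y) (tratio k))) →
      (algebraicNames (withPi y) K).encard ≤ ((r + 1 : ℕ) : ℕ∞) ∧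
      ∀ S : Finset (ℕ × ℚ), (∀ p ∈ S, p.1 ∈ K ∧ 0 < p.2) →
        ((S.card + 1 : ℕ) : Cardinal) ≤ Algebra.trdeg ℚ (IntermediateField.adjoin ℚ
          ({Real.exp 1} ∪ range (withPi y) ∪ (fun p : ℕ × ℚ => R p.1 p.2) '' (S : Set (ℕ × ℚ))))) ∧
    -- (2)
    (∀ (c : ℕ) (n : Fin c → ℕ), (∀ i, 2 ≤ n i) →
      (algebraicNames (withPi fun i => tratio (n i)) {k | 2 ≤ k ∧ (Even k ∨ ∃ i, k = n i)}).encard ≤
        ((c + 1 : ℕ) : ℕ∞)) ∧
    -- (3)
    (AlgebraicOverE Real.pi → ∀ K : Set ℕ, (∀ k ∈ K, 2 ≤ k ∧ (Even k ∨ AlgebraicOverE (tratio k))) →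
      AlgebraicIndependent ℚ (fun o : Option {p : ℕ × ℚ // p.1 ∈ K ∧ 0 < p.2} =>
        o.elim (Real.exp 1) fun p => R p.1.1 p.1.2)) ∧
    -- (4)
    (∀ (c m : ℕ) (b : Fin m → ℚ), (∀ i, 0 < b i) →
      (algebraicNames' c b).encard ≤ ((m + c + 3 : ℕ) : ℕ∞)) ∧
    -- the numbers `R_k(x)` are real
    (∀ k : ℕ, 2 ≤ k → ∀ x : ℚ, 0 < x → tailIntegral k x = (R k x : ℂ)) := by
  refine ⟨fun r y K hK => ⟨?_, ?_⟩, fun c n hn => ?_, fun hpi K hK => ?_,
    fun c m b hb => gompertz_main c b hb, fun k hk x hx => ?_⟩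
  · exact main (withPi y) K fun k hk => ⟨(hK k hk).1, alg_zeta y (hK k hk).1 (hK k hk).2⟩
  · exact main_trdeg (withPi y) K fun k hk => ⟨(hK k hk).1, alg_zeta y (hK k hk).1 (hK k hk).2⟩
  · refine main _ _ fun k hk => ⟨hk.1, alg_zeta _ hk.1 ?_⟩
    rcases hk.2 with h | ⟨i, rfl⟩
    · exact Or.inl h
    · refine Or.inr (Pool.Agent.R352.E.mem_clF.1 (Pool.Agent.R352.E.subset_clF _ (Or.inr ⟨i.succ, rfl⟩)))
  · have h := Pool.Agent.R352.Q.AI_R K fun k hk => ⟨(hK k hk).1, zeta_mem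
      (Pool.Agent.R352.E.mem_clF.2 hpi) (hK k hk).1 ((hK k hk).2.imp_right fun h => Pool.Agent.R352.E.mem_clF.2 h)⟩
    convert h using 1
    ext o
    cases o with
    | none => rfl
    | some p => exact R_eq (hK _ p.2.1).1 p.2.2
  · rw [R_eq hk hx, tailIntegral_eq hk hx]

end Pool.Agent.Results.MP_f1a024_nt.IncompleteZetaAndGompertz
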