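import Mathlib
import Pool.Agent.R532.CfQ

/-!
# The partial quotients and the digits of `ζ(2n) / ζ(n) ^ 2` and of the numbers `ζ(n) ^ c π ^ d`

If `t(n) = ζ(2n) / ζ(n) ^ 2` is rational or a quadratic irrational (for instance if `n` is even) then
its partial quotients are predicted by a finite automaton with finitely many errors (a rational
number has the partial quotients `0` after the end of its continued fraction); if it is rational then
so are its digits in every base. Since `t(n)` is a rational multiple of `π ^ (2n) / ζ(n) ^ 2`, at most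
one of `t(n)` and `ζ(n)` is algebraic, and the same holds for `t(n)` and any number `ζ(n) ^ c π ^ d` with
rational `c, d`, `d ≠ - n c`. Here we prove that two finite automata which read the partial quotients
(or the digits in some base) of these two numbers and predict them one after the other make together
at least `log (N / ((Q + Q') log H)) / log A - C` errors on the first `N` terms, at every scale `N`, for
predictions `≤ H` and all numbers `Q`, `Q'` of states, where the number `N` of partial quotients may be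
replaced by `N + log q_N` with the denominator `q_N` of the `N`-th convergent. More generally the
expansions of these two numbers cannot both be cut into few simple blocks.

The number `π` is algebraic over the field generated by the two numbers, and it has a transcendence
measure of polynomial type. So a large scale cannot be good for both numbers (`Pool.Agent.R356`), while
a scale within a long simple block is good (`Pool.Agent.R532.Cf5`).
-/

set_option autoImplicit false

namespace Pool.Agent.Results.MP_f1a024_nt.JointContinuedFractions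

open Pool.Agent.R532.CfR (CutBound PredictorBound)

/-- the values of the zeta function at the integers `s ≥ 2` (the term with `k = 0` is `0`) -/
noncomputable def zeta (s : ℕ) : ℝ := ∑' k : ℕ, 1 / (k : ℝ) ^ s

/-- `t(n) = ζ(2n) / ζ(n) ^ 2` -/
noncomputable def t (n : ℕ) : ℝ := zeta (2 * n) / zeta n ^ 2

lemma zeta_pos {s : ℕ} (hs : 2 ≤ s) : 0 < zeta s := by
  have h1 : Summable (fun k : ℕ => 1 / (k : ℝ) ^ s) :=
    Real.summable_one_div_nat_pow.2 (by omega)
  have h2 := h1.le_tsum 1 (fun j _ => by positivity)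
  have h3 : (1 : ℝ) / ((1 : ℕ) : ℝ) ^ s = 1 := by simp
  rw [h3] at h2
  unfold zeta
  linarith

lemma t_eq {n : ℕ} (hn : 2 ≤ n) : ∃ s : ℚ, s ≠ 0 ∧
    t n = s * (zeta n ^ (((-2 : ℚ)) : ℝ) * Real.pi ^ (((2 * n : ℚ)) : ℝ)) := by
  obtain ⟨s, hs⟩ : ∃ s : ℚ, s = (-1) ^ (n + 1) * 2 ^ (2 * n - 1) * bernoulli (2 * n) /
      (2 * n).factorial := ⟨_, rfl⟩
  have h1 : zeta (2 * n) = s * Real.pi ^ (2 * n) := by
    have h2 := (hasSum_zeta_nat (k := n) (by omega)).tsum_eq
    unfold zeta
    rw [h2, hs]
    push_cast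
    ring
  have hpos := zeta_pos (s := 2 * n) (by omega)
  refine ⟨s, fun h0 => ?_, ?_⟩
  · rw [h1, h0] at hpos
    simp at hpos
  · have hz := zeta_pos hn
    have e1 : zeta n ^ (((-2 : ℚ)) : ℝ) = (zeta n ^ 2)⁻¹ := by
      have : (((-2 : ℚ)) : ℝ) = -((2 : ℕ) : ℝ) := by norm_num
      rw [this, Real.rpow_neg hz.le, Real.rpow_natCast]
    have e2 : Real.pi ^ (((2 * n : ℚ)) : ℝ) = Real.pi ^ (2 * n) := by
      have : (((2 * n : ℚ)) : ℝ) = ((2 * n : ℕ) : ℝ) := by push_cast; ring
      rw [this, Real.rpow_natCast]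
    rw [e1, e2]
    unfold t
    rw [h1, div_eq_mul_inv]
    ring

lemma joint {n : ℕ} (hn : 2 ≤ n) (c d : ℚ) (h : d ≠ -(n * c)) :
    Pool.Agent.R356.JointR (t n) (zeta n ^ (c : ℝ) * Real.pi ^ (d : ℝ)) := by
  obtain ⟨s, hs, ht⟩ := t_eq hn
  rw [ht]
  refine Pool.Agent.R532.CfR.joint_rpow_const Real.pi (Or.inr (Or.inl rfl)) (zeta n) (zeta_pos hn)
    (-2) (2 * n) c d ?_ s hs
  intro h0
  apply h
  linarith

/-- **(1)** For `n ≥ 2`, rational `c, d` with `d ≠ - n c` and every `r` there is `A ≥ 1` such that: if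
the first `N` terms of an expansion of `t(n) = ζ(2n) / ζ(n) ^ 2` (partial quotients, or digits in some
base) are cut by omitting `|E|` terms into simple blocks of cost `≤ K`, and the first `N'` terms of an
expansion of `ζ(n) ^ c π ^ d` are cut by omitting `|E'|` terms into simple blocks of cost `≤ K'`, then
`min (S, S') ≤ A^(|E|+|E'|+1) (K + K' + 1)` for the sizes `S`, `S'` of the two initial segments
(`N log b` for digits, `N + log q_N` for partial quotients).

**(2)** For the same numbers there is `A ≥ 1` such that for all predictors with `Q` and `Q'` states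
the numbers of errors `ε` on the first `N` terms of an expansion of `t(n)` and `ε'` on the first `N'`
terms of an expansion of `ζ(n) ^ c π ^ d` satisfy `min (S, S') ≤ A^(ε+ε'+1) (c + c')`, where `c` is
`(Q + 1) log b` for digits and `(Q + 1) log (H + 2)` for partial quotients, with a bound `H` for the
predictions.

**(3)** The same holds for `ζ(n) ^ a π ^ b` and `ζ(n) ^ c π ^ d` with rational `a d ≠ b c`. -/
theorem result :
    (∀ n : ℕ, 2 ≤ n → ∀ c d : ℚ, d ≠ -(n * c) → ∀ r : ℕ, ∃ A : ℝ, 1 ≤ A ∧
      CutBound A r (t n) (zeta n ^ (c : ℝ) * Real.pi ^ (d : ℝ))) ∧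
    (∀ n : ℕ, 2 ≤ n → ∀ c d : ℚ, d ≠ -(n * c) → ∃ A : ℝ, 1 ≤ A ∧
      PredictorBound A (t n) (zeta n ^ (c : ℝ) * Real.pi ^ (d : ℝ))) ∧
    (∀ n : ℕ, 2 ≤ n → ∀ a b c d : ℚ, a * d ≠ b * c → (∀ r : ℕ, ∃ A : ℝ, 1 ≤ A ∧
      CutBound A r (zeta n ^ (a : ℝ) * Real.pi ^ (b : ℝ)) (zeta n ^ (c : ℝ) * Real.pi ^ (d : ℝ))) ∧
      ∃ A : ℝ, 1 ≤ A ∧ PredictorBound A (zeta n ^ (a : ℝ) * Real.pi ^ (b : ℝ))
        (zeta n ^ (c : ℝ) * Real.pi ^ (d : ℝ))) := by
  refine ⟨fun n hn c d h r => Pool.Agent.R532.CfR.cutBound _ _ (joint hn c d h) r,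
    fun n hn c d h => Pool.Agent.R532.CfR.predictorBound _ _ (joint hn c d h),
    fun n hn a b c d h => ?_⟩
  have h1 := Pool.Agent.R532.CfR.joint_rpow Real.pi (Or.inr (Or.inl rfl)) (zeta n) (zeta_pos hn)
    a b c d h
  exact ⟨fun r => Pool.Agent.R532.CfR.cutBound _ _ h1 r,
    Pool.Agent.R532.CfR.predictorBound _ _ h1⟩

end Pool.Agent.Results.MP_f1a024_nt.JointContinuedFractions
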