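import Mathlib
import Pool.Agent.R473.HD.Gen

/-!
# The digits of `ζ(n)^a π^b` and of `t(n) = ζ(2n)/ζ(n)²`

Since `ζ(2n)` is a rational multiple of `π^(2n)`, the number `t(n)` is a rational multiple of
`ζ(n)^(-2) π^(2n)`, and for odd `n ≥ 3` it is not known to be irrational.  As `π` is transcendental, `α ζ(n)^a π^b`
can be algebraic only for the vectors `(a, b)` on one line.  We prove a form of this for the digits:
for all `n ≥ 2` the vectors `(a, b)` of rational numbers such that for some algebraic `α ≠ 0` the digits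
of `α ζ(n)^a π^b` in some base have low complexity lie on one line.  Hence either all the numbers `β t(n)`,
`β ≠ 0` algebraic, have digits of high complexity, or all the numbers `α ζ(n)^a π^b` with `b ≠ - n a`
(in particular `ζ(n)` and `ζ(n)/π^s`, `s ≠ n`) have; if `t(n)` is rational, the latter is the case.

A relation of degree `1` for a block of digits is a linear recurrence; a finite automaton with `Q`
states which predicts every next digit and makes `E` errors cuts the digits into `E + 1` blocks with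
relations of degree `1` and order `≤ Q`.  The digits of a rational number have such a cut with `E = 0`
and bounded `Q` in every base.  A number `x` is called hard (for the degree `r` and `θ < 1`) if for some
`c > 0` in every base, for infinitely many `N`, its first `N` digits cannot be cut by at most `c log N` cuts
into blocks with relations of degree `≤ r` with coefficients of degree `≤ N^θ`.

The proof uses the joint measure `Pool.Agent.R356.joint`: if `x` is `e`, `π` or `log q` and algebraic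
over `ℚ(u, v)`, then integer polynomials `P(u)`, `Q(v)` of bounded degree cannot both be very small, so
that the blocks of `u` and of `v` cannot both be long (`Pool.Agent.R473.FP.cut_pair`).
-/

set_option autoImplicit false

namespace Pool.Agent.Results.MP_f1a024_nt.PredictableMonomials

open Finset Polynomial

/-- the `i`-th digit of `x` after the point in base `b` -/
noncomputable def digit (b : ℕ) (x : ℝ) (i : ℕ) : ℤ := ⌊x * (b : ℝ) ^ i⌋ % (b : ℤ)

/-- the polynomial `d_(u+1) X + ⋯ + d_(u+n) X^n` of a block of digits of `x` in base `b` -/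
noncomputable def blockPoly (b : ℕ) (x : ℝ) (u n : ℕ) : ℚ[X] :=
  ∑ l ∈ Icc 1 n, C (digit b x (u + l) : ℚ) * X ^ l

/-- there are polynomials `h_0, …, h_r` over `ℚ` of degree `≤ k`, not all zero, such that
`h_0 + h_1 D + ⋯ + h_r D^r` is divisible by `X^(q-p+1)`, where `D` is the polynomial of the block of
the digits of `x` from the `(p+1)`-st to the `q`-th place -/
def BlockRelation (b : ℕ) (x : ℝ) (r p q k : ℕ) : Prop :=
  ∃ h : Fin (r + 1) → ℚ[X], h ≠ 0 ∧ (∀ j, (h j).natDegree ≤ k) ∧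
    X ^ (q - p + 1) ∣ ∑ j, h j * blockPoly b x p (q - p) ^ (j : ℕ)

/-- The digits of `x` with the numbers `e + 1`, `e ∈ E`, are omitted; they cut the first `N` digits
into blocks.  Every block satisfies a relation of degree `≤ r` with coefficients of degree `≤ k`. -/
def Cut (b : ℕ) (x : ℝ) (r k N : ℕ) (E : Finset ℕ) : Prop :=
  ∀ p q, p ≤ q → q ≤ N → (p = 0 ∨ ∃ e ∈ E, p = e + 1) → (q = N ∨ q ∈ E) →
    (∀ e ∈ E, e < p ∨ q ≤ e) → BlockRelation b x r p q k

/-- There is `c > 0` such that in every base, for infinitely many `N`, the first `N` digits of `x`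
cannot be cut by at most `c log N` cuts into blocks which satisfy relations of degree `≤ r` with
coefficients of degree at most `N ^ θ`. -/
def Hard (r : ℕ) (θ x : ℝ) : Prop :=
  ∃ c : ℝ, 0 < c ∧ ∀ b : ℕ, 2 ≤ b → ∀ N₀ : ℕ, ∃ N : ℕ, N₀ ≤ N ∧ ∀ (k : ℕ) (E : Finset ℕ),
    (k : ℝ) ≤ (N : ℝ) ^ θ → Cut b x r k N E → c * Real.log N < E.card

/-- the vectors `(a, b)` of rational numbers such that for some real algebraic `α ≠ 0` the number
`α z^a x^b` is not hard -/
def Easy (r : ℕ) (θ z x : ℝ) : Set (ℚ × ℚ) :=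
  {p | ∃ α : ℝ, α ≠ 0 ∧ IsAlgebraic ℚ α ∧ ¬ Hard r θ (α * z ^ (p.1 : ℝ) * x ^ (p.2 : ℝ))}

/-- `ζ(n) = ∑ 1/(k+1)^n` -/
noncomputable def zeta (n : ℕ) : ℝ := ∑' k : ℕ, 1 / ((k : ℝ) + 1) ^ n

/-- `t(n) = ζ(2n)/ζ(n)²` -/
noncomputable def t (n : ℕ) : ℝ := zeta (2 * n) / zeta n ^ 2

lemma zeta_pos (i : ℕ) (hi : 2 ≤ i) : 0 < zeta i := by
  unfold zeta
  have h := (Real.summable_one_div_nat_pow (p := i)).mpr (by omega)
  have h2 : Summable fun n : ℕ => 1 / ((n : ℝ) + 1) ^ i := by
    refine ((summable_nat_add_iff 1).mpr h).congr fun n => ?_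
    push_cast
    rfl
  exact h2.tsum_pos (fun n => by positivity) 0 (by norm_num)

/-- Euler's formula -/
lemma zeta_even (n : ℕ) (hn : n ≠ 0) : ∃ c : ℚ, zeta (2 * n) = c * Real.pi ^ (2 * n) := by
  refine ⟨(-1) ^ (n + 1) * 2 ^ (2 * n - 1) * _root_.bernoulli (2 * n) / (2 * n).factorial, ?_⟩
  have h := hasSum_zeta_nat hn
  have h1 := (hasSum_nat_add_iff' 1).2 h
  rw [Finset.sum_range_one, Nat.cast_zero, zero_pow (by omega), div_zero, sub_zero] at h1
  have h2 : zeta (2 * n) = (-1 : ℝ) ^ (n + 1) * (2 : ℝ) ^ (2 * n - 1) * Real.pi ^ (2 * n) *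
      _root_.bernoulli (2 * n) / (2 * n).factorial := by
    rw [← h1.tsum_eq]
    unfold zeta
    refine tsum_congr fun k => ?_
    push_cast
    rfl
  rw [h2]
  push_cast
  ring

/-- Let `n ≥ 2`, `r ≥ 1` and `0 ≤ θ < 1`. **(1)** The vectors `(a, b)` of rational numbers such that
`α ζ(n)^a π^b` is not hard for some real algebraic `α ≠ 0` lie on one line through the origin.
**(2)** Either `β t(n)` is hard for all real algebraic `β ≠ 0`, or `α ζ(n)^a π^b` is hard for all rational `a`,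
`b` with `b ≠ -n a` and all real algebraic `α ≠ 0`. **(3)** If `t(n)` is algebraic, then the second
alternative of (2) holds. -/
theorem result : ∀ n : ℕ, 2 ≤ n → ∀ (r : ℕ) (θ : ℝ), 1 ≤ r → 0 ≤ θ → θ < 1 →
    (∀ p ∈ Easy r θ (zeta n) Real.pi, ∀ q ∈ Easy r θ (zeta n) Real.pi, p.1 * q.2 = p.2 * q.1) ∧
    ((∀ β : ℝ, β ≠ 0 → IsAlgebraic ℚ β → Hard r θ (β * t n)) ∨
      ∀ (a b : ℚ) (α : ℝ), b ≠ -(n * a) → α ≠ 0 → IsAlgebraic ℚ α →
        Hard r θ (α * zeta n ^ (a : ℝ) * Real.pi ^ (b : ℝ))) ∧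
    (IsAlgebraic ℚ (t n) → ∀ (a b : ℚ) (α : ℝ), b ≠ -(n * a) → α ≠ 0 → IsAlgebraic ℚ α →
      Hard r θ (α * zeta n ^ (a : ℝ) * Real.pi ^ (b : ℝ))) := by
  intro n hn r θ hr hθ hθ1
  have hz := zeta_pos n hn
  have hz2 := zeta_pos (2 * n) (by omega)
  have hline : ∀ p ∈ Easy r θ (zeta n) Real.pi, ∀ q ∈ Easy r θ (zeta n) Real.pi,
      p.1 * q.2 = p.2 * q.1 := fun p hp q hq =>
    Pool.Agent.R473.HD.line Real.pi (Or.inr (Or.inl rfl)) _ hz r θ hθ hθ1 p q hp hq
  have ht0 : t n ≠ 0 := by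
    unfold t
    positivity
  obtain ⟨c, hc⟩ := zeta_even n (by omega)
  have hc0 : (c : ℝ) ≠ 0 := by
    intro h0
    rw [h0, zero_mul] at hc
    exact hz2.ne' hc
  have key : ∀ β : ℝ, β ≠ 0 → IsAlgebraic ℚ β → ¬ Hard r θ (β * t n) →
      ∀ (a b : ℚ) (α : ℝ), b ≠ -(n * a) → α ≠ 0 → IsAlgebraic ℚ α →
        Hard r θ (α * zeta n ^ (a : ℝ) * Real.pi ^ (b : ℝ)) := by
    intro β hβ hβa hno a b α hb hα hαa
    by_contra hno'
    have hmem : ((-2 : ℚ), (2 * n : ℚ)) ∈ Easy r θ (zeta n) Real.pi := by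
      refine ⟨β * c, mul_ne_zero hβ hc0, hβa.mul (isAlgebraic_algebraMap c), ?_⟩
      have e : β * c * zeta n ^ (((-2 : ℚ) : ℚ) : ℝ) * Real.pi ^ ((2 * n : ℚ) : ℝ) = β * t n := by
        have e1 : (((-2 : ℚ) : ℚ) : ℝ) = ((-2 : ℤ) : ℝ) := by norm_num
        have e2 : ((2 * n : ℚ) : ℝ) = ((2 * n : ℕ) : ℝ) := by push_cast; ring
        rw [e1, e2, Real.rpow_intCast, Real.rpow_natCast]
        unfold t
        rw [hc]
        have e3 : zeta n ^ (-2 : ℤ) = (zeta n ^ 2)⁻¹ := by
          rw [zpow_neg]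
          norm_cast
        rw [e3]
        field_simp
      dsimp only
      rw [e]
      exact hno
    have h1 := hline _ hmem (a, b) ⟨α, hα, hαa, hno'⟩
    dsimp only at h1
    apply hb
    linarith
  refine ⟨hline, ?_, fun hta => ?_⟩
  · by_cases h : ∀ β : ℝ, β ≠ 0 → IsAlgebraic ℚ β → Hard r θ (β * t n)
    · exact Or.inl h
    · push Not at h
      obtain ⟨β, hβ, hβa, hno⟩ := h
      exact Or.inr (key β hβ hβa hno)
  · refine key (t n)⁻¹ (inv_ne_zero ht0) hta.inv ?_
    rw [inv_mul_cancel₀ ht0]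
    exact Pool.Agent.R473.HD.not_hard_one r hr θ

end Pool.Agent.Results.MP_f1a024_nt.PredictableMonomials
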